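import Pool.Agent.helper19.MX.SpecD

/-!
# Row mx:ACH (MP_a875de_ag): change of generators
-/

set_option autoImplicit false

namespace MX

open Pool.Agent.helper53.AU AN
open scoped Classical Topology IntermediateField
open Finset (range powerset Icc)

theorem ACH_gen {k F : Type} [Field k] [Field F] [Algebra k F] (S S' : Set F)
    (h : IntermediateField.adjoin k S = ⊤) (hS : ∀ z ∈ S, z ∈ IntermediateField.adjoin k S') :
    IntermediateField.adjoin k S' = ⊤ := by
  rw [eq_top_iff, ← h]
  exact IntermediateField.adjoin_le_iff.mpr hS

theorem ACH : ACH_stmt := by
  intro k F _ _ _ _ x r y f h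
  have : CharP F 2 := charP_of_injective_algebraMap (algebraMap k F).injective 2
  have two0 : (2 : F) = 0 := CharTwo.two_eq_zero
  constructor
  · refine ⟨h.tr, ACH_gen _ _ h.gen ?_, ?_, ?_⟩
    · rintro z (hz | ⟨j, hj, rfl⟩)
      · exact IntermediateField.subset_adjoin _ _ (Or.inl hz)
      · have hj' : j < r + 2 := hj
        apply IntermediateField.subset_adjoin
        right
        by_cases h1 : j = r
        · refine ⟨r + 1, by simp, ?_⟩
          simp [h1]
        · by_cases h2 : j = r + 1
          · refine ⟨r, by simp, ?_⟩
            simp [h2]
          · refine ⟨j, hj, ?_⟩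
            simp [h1, h2]
    · intro j hj
      try simp only
      split_ifs with h1 h2
      · exact h.eq _ (by omega)
      · exact h.eq _ (by omega)
      · exact h.eq _ hj
    · intro T hT hne
      have h1 : ∑ j ∈ T, (if j = r then f (r + 1) else if j = r + 1 then f r else f j) =
          ∑ j ∈ T.map (Equiv.swap r (r + 1)).toEmbedding, f j := by
        rw [Finset.sum_map]
        refine Finset.sum_congr rfl fun j _ => ?_
        rw [Equiv.coe_toEmbedding, Equiv.swap_apply_def]
        split_ifs <;> rfl
      show Odd (∑ j ∈ T, (if j = r then f (r + 1) else if j = r + 1 then f r else f j)).natDegree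
      rw [h1]
      apply h.odd
      · intro j hj
        rw [Finset.mem_map] at hj
        obtain ⟨i, hi, rfl⟩ := hj
        have h2 := Finset.mem_range.mp (hT hi)
        rw [Equiv.coe_toEmbedding, Equiv.swap_apply_def, Finset.mem_range]
        split_ifs <;> omega
      · intro h2
        exact hne (Finset.map_eq_empty.mp h2)
  · refine ⟨h.tr, ACH_gen _ _ h.gen ?_, ?_, ?_⟩
    · have key : ∀ j, j < r + 2 → j ≠ r → y j ∈ IntermediateField.adjoin k
          (({x} : Set F) ∪ (fun j => if j = r then y r + y (r + 1) else y j) '' {j | j < r + 2}) := by
        intro j hj h1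
        apply IntermediateField.subset_adjoin
        right
        refine ⟨j, hj, ?_⟩
        simp [h1]
      rintro z (hz | ⟨j, hj, rfl⟩)
      · exact IntermediateField.subset_adjoin _ _ (Or.inl hz)
      · have hj' : j < r + 2 := hj
        by_cases h1 : j = r
        · have h2 : y r + y (r + 1) ∈ IntermediateField.adjoin k
              (({x} : Set F) ∪ (fun j => if j = r then y r + y (r + 1) else y j) '' {j | j < r + 2}) := by
            apply IntermediateField.subset_adjoin
            right
            refine ⟨r, by simp, ?_⟩
            simp
          have h3 := sub_mem h2 (key (r + 1) (by omega) (by omega))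
          rw [add_sub_cancel_right] at h3
          rw [h1]
          exact h3
        · exact key j hj' h1
    · intro j hj
      try simp only
      split_ifs with h1
      · rw [map_add, ← h.eq r (by omega), ← h.eq (r + 1) (by omega)]
        linear_combination (y r * y (r + 1)) * two0
      · exact h.eq _ hj
    · intro T hT hne
      show Odd (∑ j ∈ T, (if j = r then f r + f (r + 1) else f j)).natDegree
      by_cases h1 : r ∈ T
      · have h2 : ∑ j ∈ T, (if j = r then f r + f (r + 1) else f j) = ∑ j ∈ T, f j + f (r + 1) := by
          rw [← Finset.add_sum_erase T _ h1, ← Finset.add_sum_erase T f h1, if_pos rfl]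
          rw [Finset.sum_congr rfl (g := f)]
          · ring
          · intro j hj
            rw [if_neg (Finset.ne_of_mem_erase hj)]
        rw [h2]
        by_cases h3 : r + 1 ∈ T
        · have h4 : ∑ j ∈ T, f j + f (r + 1) = ∑ j ∈ T.erase (r + 1), f j := by
            rw [← Finset.add_sum_erase T f h3]
            have h5 : f (r + 1) + f (r + 1) = 0 := CharTwo.add_self_eq_zero _
            linear_combination h5
          rw [h4]
          apply h.odd
          · exact (Finset.erase_subset _ _).trans hT
          · intro h5
            have h6 : r ∈ T.erase (r + 1) := Finset.mem_erase.mpr ⟨by omega, h1⟩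
            rw [h5] at h6
            exact absurd h6 (Finset.notMem_empty _)
        · have h4 : ∑ j ∈ T, f j + f (r + 1) = ∑ j ∈ insert (r + 1) T, f j := by
            rw [Finset.sum_insert h3, add_comm]
          rw [h4]
          apply h.odd
          · intro j hj
            rcases Finset.mem_insert.mp hj with h5 | h5
            · rw [h5]
              exact Finset.mem_range.mpr (by omega)
            · exact hT h5
          · exact Finset.insert_ne_empty _ _
      · have h2 : ∑ j ∈ T, (if j = r then f r + f (r + 1) else f j) = ∑ j ∈ T, f j := by
          refine Finset.sum_congr rfl fun j hj => ?_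
          rw [if_neg]
          intro h3
          exact h1 (h3 ▸ hj)
        rw [h2]
        exact h.odd T hT hne

end MX
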