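import Pool.Agent.helper19.MX.SpecA

/-!
# Row mx:CUB (MP_a875de_ag): the cubic sum
-/

set_option autoImplicit false

namespace MX

open Pool.Agent.helper53.AU AN
open scoped Classical Topology
open Finset (range powerset Icc)

/-- a primitive cube root of unity -/
theorem CUB_root (K : Type) [Field K] [Fintype K] (n : ℕ) (hn : Fintype.card K = 4 ^ n) :
    ∃ c : K, c ≠ 1 ∧ c ^ 3 = 1 ∧ c ^ 2 + c + 1 = 0 ∧ c ≠ 0 := by
  have h1 : Fintype.card Kˣ = 4 ^ n - 1 := by rw [Fintype.card_units, hn]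
  have h2 : 3 ∣ Fintype.card Kˣ := by
    rw [h1]
    have := Nat.sub_dvd_pow_sub_pow 4 1 n
    rwa [one_pow] at this
  obtain ⟨u, hu⟩ := exists_prime_orderOf_dvd_card 3 h2
  have h3 : u ^ 3 = 1 := by rw [← hu]; exact pow_orderOf_eq_one u
  have h4 : u ≠ 1 := by
    intro h
    rw [h, orderOf_one] at hu
    omega
  have h5 : (u : K) ^ 3 = 1 := by
    rw [← Units.val_pow_eq_pow_val, h3, Units.val_one]
  have h6 : (u : K) ≠ 1 := fun h => h4 (Units.ext h)
  refine ⟨u, h6, h5, ?_, u.ne_zero⟩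
  have h7 : ((u : K) - 1) * ((u : K) ^ 2 + u + 1) = 0 := by
    linear_combination h5
  rcases mul_eq_zero.mp h7 with h8 | h8
  · exact absurd (sub_eq_zero.mp h8) h6
  · exact h8

theorem CUB_iff {K : Type} [Field K] (c : K) (hc : c ^ 2 + c + 1 = 0) (w : K) :
    w ^ 3 = 1 ↔ w = 1 ∨ w = c ∨ w = c ^ 2 := by
  have h1 : w ^ 3 - 1 = (w - 1) * ((w - c) * (w - c ^ 2)) := by
    linear_combination (w * (w - 1) - (w - 1) * (c - 1)) * hc
  constructor
  · intro h
    have h2 : (w - 1) * ((w - c) * (w - c ^ 2)) = 0 := by rw [← h1, h, sub_self]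
    rcases mul_eq_zero.mp h2 with h3 | h3
    · exact Or.inl (sub_eq_zero.mp h3)
    · rcases mul_eq_zero.mp h3 with h4 | h4
      · exact Or.inr (Or.inl (sub_eq_zero.mp h4))
      · exact Or.inr (Or.inr (sub_eq_zero.mp h4))
  · intro h
    have h2 : (w - 1) * ((w - c) * (w - c ^ 2)) = 0 := by
      rcases h with h | h | h <;> rw [h] <;> ring
    rw [← h1] at h2
    exact sub_eq_zero.mp h2

theorem CUB_card {K : Type} [Field K] [Fintype K] (c : K) (hc1 : c ≠ 1) (hc : c ^ 2 + c + 1 = 0)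
    (hc0 : c ≠ 0) (x₀ : K) (hx : x₀ ≠ 0) :
    (Finset.univ.filter (fun x : K => x ≠ 0 ∧ x ^ 3 = x₀ ^ 3)).card = 3 := by
  have h1 : Finset.univ.filter (fun x : K => x ≠ 0 ∧ x ^ 3 = x₀ ^ 3) = {x₀, x₀ * c, x₀ * c ^ 2} := by
    ext x
    simp only [Finset.mem_filter, Finset.mem_univ, true_and, Finset.mem_insert, Finset.mem_singleton]
    have h2 : x ^ 3 = x₀ ^ 3 ↔ (x / x₀) ^ 3 = 1 := by
      rw [div_pow, div_eq_one_iff_eq (pow_ne_zero 3 hx)]
    rw [h2, CUB_iff c hc]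
    constructor
    · rintro ⟨-, h | h | h⟩
      · left; field_simp at h; exact h
      · right; left; rw [← h]; field_simp
      · right; right; rw [← h]; field_simp
    · rintro (h | h | h)
      · rw [h]; exact ⟨hx, Or.inl (div_self hx)⟩
      · rw [h]; refine ⟨mul_ne_zero hx hc0, Or.inr (Or.inl ?_)⟩; field_simp
      · rw [h]; refine ⟨mul_ne_zero hx (pow_ne_zero 2 hc0), Or.inr (Or.inr ?_)⟩; field_simp
  have e1 : x₀ ≠ x₀ * c := by
    intro h
    exact hc1 (mul_left_cancel₀ hx (by rw [← h, mul_one]))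
  have e2 : x₀ ≠ x₀ * c ^ 2 := by
    intro h
    have h3 : c ^ 2 = 1 := mul_left_cancel₀ hx (by rw [← h, mul_one])
    have h4 : c ^ 3 = 1 := by linear_combination (c - 1) * hc
    apply hc1
    calc c = c * c ^ 2 := by rw [h3, mul_one]
      _ = c ^ 3 := by ring
      _ = 1 := h4
  have e3 : x₀ * c ≠ x₀ * c ^ 2 := by
    intro h
    have h3 : c = c ^ 2 := mul_left_cancel₀ hx h
    apply hc1
    have h4 : c * (c - 1) = 0 := by linear_combination -h3
    rcases mul_eq_zero.mp h4 with h5 | h5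
    · exact absurd h5 hc0
    · exact sub_eq_zero.mp h5
  rw [h1, Finset.card_insert_of_notMem, Finset.card_insert_of_notMem, Finset.card_singleton]
  · simpa using e3
  · simp only [Finset.mem_insert, Finset.mem_singleton, not_or]
    exact ⟨e1, e2⟩

/-- the sum is 1 modulo 3 -/
theorem CUB_mod {K : Type} [Field K] [Fintype K] (c : K) (hc1 : c ≠ 1) (hc : c ^ 2 + c + 1 = 0)
    (hc0 : c ≠ 0) (f : K → ℤ) (h0 : f 0 = 1) : (3 : ℤ) ∣ ∑ x : K, f (x ^ 3) - 1 := by
  have h1 : ∑ x : K, f (x ^ 3) = f 0 + ∑ x ∈ Finset.univ.filter (fun x : K => x ≠ 0), f (x ^ 3) := by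
    rw [← Finset.sum_filter_add_sum_filter_not Finset.univ (fun x : K => x = 0) (fun x => f (x ^ 3))]
    rw [Finset.filter_eq' Finset.univ (0 : K)]
    simp
  have h2 : ∑ x ∈ Finset.univ.filter (fun x : K => x ≠ 0), f (x ^ 3) =
      ∑ y : K, ∑ x ∈ (Finset.univ.filter (fun x : K => x ≠ 0)).filter (fun x => x ^ 3 = y), f (x ^ 3) :=
    (Finset.sum_fiberwise _ _ _).symm
  rw [h1, h0, add_sub_cancel_left, h2]
  refine Finset.dvd_sum fun y _ => ?_
  rw [Finset.filter_filter]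
  have h3 : ∑ x ∈ Finset.univ.filter (fun x : K => x ≠ 0 ∧ x ^ 3 = y), f (x ^ 3) =
      ((Finset.univ.filter (fun x : K => x ≠ 0 ∧ x ^ 3 = y)).card : ℤ) * f y := by
    rw [Finset.sum_congr rfl (g := fun _ => f y), Finset.sum_const, nsmul_eq_mul]
    intro x hx
    rw [(Finset.mem_filter.mp hx).2.2]
  rw [h3]
  by_cases h4 : ∃ x₀ : K, x₀ ≠ 0 ∧ x₀ ^ 3 = y
  · obtain ⟨x₀, hx0, hx1⟩ := h4
    rw [← hx1, CUB_card c hc1 hc hc0 x₀ hx0]
    exact Dvd.intro _ rfl
  · have h5 : Finset.univ.filter (fun x : K => x ≠ 0 ∧ x ^ 3 = y) = ∅ := by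
      rw [Finset.filter_eq_empty_iff]
      intro x _ hx
      exact h4 ⟨x, hx⟩
    rw [h5]
    simp

theorem CUB_fin (n : ℕ) (S : ℤ) (h1 : S ^ 2 = 4 ^ (n + 1)) (h2 : (3 : ℤ) ∣ S - 1) :
    S = (-1) ^ (n + 1) * 2 ^ (n + 1) := by
  have h3 : (S - 2 ^ (n + 1)) * (S + 2 ^ (n + 1)) = 0 := by
    have h4 : (4 : ℤ) ^ (n + 1) = 2 ^ (n + 1) * 2 ^ (n + 1) := by
      rw [← mul_pow]; norm_num
    linear_combination h1 + h4
  have h5 : (3 : ℤ) ∣ 2 ^ (n + 1) - (-1) ^ (n + 1) := by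
    have := sub_dvd_pow_sub_pow (2 : ℤ) (-1) (n + 1)
    norm_num at this
    exact this
  rcases neg_one_pow_eq_or ℤ (n + 1) with h6 | h6
  · rw [h6] at h5 ⊢
    rcases mul_eq_zero.mp h3 with h7 | h7
    · linarith
    · exfalso
      have h8 : S = -2 ^ (n + 1) := by linarith
      rw [h8] at h2
      have h9 : (3 : ℤ) ∣ 2 ^ (n + 1) - 1 + (-2 ^ (n + 1) - 1) := dvd_add h5 h2
      have h10 : (2 : ℤ) ^ (n + 1) - 1 + (-2 ^ (n + 1) - 1) = -2 := by ring
      rw [h10] at h9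
      omega
  · rw [h6] at h5 ⊢
    rcases mul_eq_zero.mp h3 with h7 | h7
    · exfalso
      have h8 : S = 2 ^ (n + 1) := by linarith
      rw [h8] at h2
      have h9 : (3 : ℤ) ∣ 2 ^ (n + 1) - -1 - (2 ^ (n + 1) - 1) := dvd_sub h5 h2
      have h10 : (2 : ℤ) ^ (n + 1) - -1 - (2 ^ (n + 1) - 1) = 2 := by ring
      rw [h10] at h9
      omega
    · linarith

theorem CUB (hCH2 : CH2_stmt) (hPS1 : PS1_stmt) (hPS2 : PS2_stmt) (hPSS : PSS_stmt) : CUB_stmt := by
  intro K _ _ n hn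
  obtain ⟨hch, hn1⟩ := hCH2 K n hn
  obtain ⟨p0, padd, pu, ppow, pval, -⟩ := hPS1 K
  obtain ⟨q1, -⟩ := hPS2 K
  obtain ⟨c, hc1, hc3, hc, hc0⟩ := CUB_root K n hn
  have two0 : (2 : K) = 0 := CharTwo.two_eq_zero
  have p1 : ps (1 : K) = 1 := by
    have h1 : (1 : K) = c ^ 2 + c := by linear_combination -hc + two0
    rw [h1]
    exact pu c
  refine CUB_fin n _ ?_ (CUB_mod c hc1 hc hc0 ps p0)
  -- the square
  have hsqinj : Function.Injective (fun x : K => x ^ 2) := by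
    intro x y hxy
    have h1 : x ^ 2 = y ^ 2 := hxy
    have h2 : (x - y) ^ 2 = 0 := by linear_combination h1 + (y ^ 2 - x * y) * two0
    exact sub_eq_zero.mp (pow_eq_zero_iff (two_ne_zero)|>.mp h2)
  have hsq : ∀ d : K, ∑ x : K, ps (d * x ^ 2) = ∑ z : K, ps (d * z) := by
    intro d
    exact Fintype.sum_bijective (fun x : K => x ^ 2) (Finite.injective_iff_bijective.mp hsqinj) _ _
      (fun x => rfl)
  have hterm : ∀ x w : K, ps (x ^ 3) * ps ((x + w) ^ 3) = ps (w ^ 3) * ps ((w + w ^ 4) * x ^ 2) := by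
    intro x w
    have h1 : x ^ 3 + (x + w) ^ 3 = w ^ 3 + (x ^ 2 * w + x * w ^ 2) := by
      linear_combination (x ^ 3 + x ^ 2 * w + x * w ^ 2) * two0
    have h2 : ps (x * w ^ 2) = ps (x ^ 2 * w ^ 4) := by
      rw [← ppow (x * w ^ 2) 1]
      ring_nf
    rw [← padd, h1, padd, padd, h2, ← padd]
    ring_nf
  have hS : (∑ x : K, ps (x ^ 3)) ^ 2 = ∑ w : K, ps (w ^ 3) * ∑ z : K, ps ((w + w ^ 4) * z) := by
    rw [sq, Finset.sum_mul_sum]
    have h1 : ∀ x : K, ∑ y : K, ps (x ^ 3) * ps (y ^ 3) = ∑ w : K, ps (w ^ 3) * ps ((w + w ^ 4) * x ^ 2) := by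
      intro x
      symm
      refine Fintype.sum_equiv (Equiv.addLeft x) _ _ (fun w => ?_)
      rw [← hterm x w]
      rfl
    rw [Finset.sum_congr rfl (fun x _ => h1 x), Finset.sum_comm]
    refine Finset.sum_congr rfl fun w _ => ?_
    rw [← Finset.mul_sum, hsq]
  rw [hS]
  have hw : ∀ w : K, ps (w ^ 3) * ∑ z : K, ps ((w + w ^ 4) * z) =
      if w = 0 ∨ w ^ 3 = 1 then (4 : ℤ) ^ n else 0 := by
    intro w
    have h1 : w + w ^ 4 = 0 ↔ (w = 0 ∨ w ^ 3 = 1) := by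
      have h2 : w + w ^ 4 = w * (w ^ 3 - 1) + 2 * w := by ring
      rw [h2, two0, zero_mul, add_zero, mul_eq_zero, sub_eq_zero]
    by_cases h3 : w = 0 ∨ w ^ 3 = 1
    · rw [if_pos h3, h1.mpr h3]
      simp only [zero_mul, p0, Finset.sum_const, Finset.card_univ, nsmul_eq_mul, mul_one, hn]
      rcases h3 with h4 | h4
      · rw [h4, zero_pow (by norm_num), p0]; push_cast; ring
      · rw [h4, p1]; push_cast; ring
    · rw [if_neg h3, q1 _ (fun h => h3 (h1.mp h)), mul_zero]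
  rw [Finset.sum_congr rfl (fun w _ => hw w), ← Finset.sum_filter, Finset.sum_const, nsmul_eq_mul]
  have hcard : (Finset.univ.filter (fun w : K => w = 0 ∨ w ^ 3 = 1)).card = 4 := by
    have h1 : Finset.univ.filter (fun w : K => w = 0 ∨ w ^ 3 = 1) =
        insert 0 (Finset.univ.filter (fun x : K => x ≠ 0 ∧ x ^ 3 = 1 ^ 3)) := by
      ext w
      simp only [Finset.mem_filter, Finset.mem_univ, true_and, Finset.mem_insert, one_pow]
      constructor
      · rintro (h | h)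
        · exact Or.inl h
        · by_cases h0 : w = 0
          · exact Or.inl h0
          · exact Or.inr ⟨h0, h⟩
      · rintro (h | ⟨-, h⟩)
        · exact Or.inl h
        · exact Or.inr h
    rw [h1, Finset.card_insert_of_notMem, CUB_card c hc1 hc hc0 1 one_ne_zero]
    simp
  rw [hcard, pow_succ]
  push_cast
  ring

end MX
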